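import Pool.Agent.helper82.UM.Spec

/-!
# Project UM (MP_2e0e07_nt), row RDX: reduction of integral elements, openness of kernels
-/

set_option autoImplicit false

namespace Pool.Agent.UM

open Matrix Polynomial Pool.Agent.GO Pool.Agent.AR Pool.Agent.RG Pool.Agent.HZ Pool.Agent.DS
  Pool.Agent.AX MeasureTheory NumberField

theorem RDX_int (p : ℕ) [Fact p.Prime] {F : Type} [NormedField F] [NormedAlgebra ℚ_[p] F] (y : F) (hy : IsIntegral ℤ y) :
    ‖y‖ ≤ 1 := by
  have h1 : ∀ n : ℕ, ‖(n : F)‖ ≤ 1 := by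
    intro n
    have h2 : (n : F) = algebraMap ℚ_[p] F (n : ℚ_[p]) := by rw [map_natCast]
    rw [h2, norm_algebraMap']
    have h3 := Padic.norm_int_le_one (p := p) (n : ℤ)
    simpa using h3
  have h4 : IsUltrametricDist F := IsUltrametricDist.isUltrametricDist_of_forall_norm_natCast_le_one h1
  have h5 : IsIntegral (NormedField.valuation (K := F)).integer y := hy.tower_top
  have h6 := Valuation.Integers.mem_of_integral (Valuation.integer.integers (NormedField.valuation (K := F))) h5
  have h7 : NormedField.valuation (K := F) y ≤ 1 := h6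
  have h8 : ‖y‖₊ ≤ 1 := h7
  exact_mod_cast h8

theorem RDX_red0 {F κ : Type} [NormedField F] [Field κ] {red : F → κ} (hr : IsRed red) {y : F} (hy : ‖y‖ < 1) : red y = 0 :=
  (hr.zero_iff y hy.le).2 hy

theorem RDX_red1 {F κ : Type} [NormedField F] [Field κ] {red : F → κ} (hr : IsRed red) (a b : Fin 2) :
    red ((1 : Matrix (Fin 2) (Fin 2) F) a b) = (1 : Matrix (Fin 2) (Fin 2) κ) a b := by
  by_cases hab : a = b
  · subst hab
    rw [Matrix.one_apply_eq, Matrix.one_apply_eq, hr.one]
  · rw [Matrix.one_apply_ne hab, Matrix.one_apply_ne hab]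
    exact RDX_red0 hr (by rw [norm_zero]; exact one_pos)

/-- **Row RDX** -/
theorem RDX : RDX_stmt := by
  refine ⟨?_, ?_, ?_⟩
  · intro p _ E F κ _ _ _ _ _ ι red hr
    have hb : ∀ x : 𝓞 E, ‖ι (x : E)‖ ≤ 1 := fun x => RDX_int p _ (map_isIntegral_int ι (RingOfIntegers.isIntegral_coe x))
    refine ⟨{ toFun := fun x => red (ι (x : E)), map_one' := ?_, map_mul' := ?_, map_zero' := ?_, map_add' := ?_ },
      fun x => ⟨rfl, hb x⟩⟩
    · change red ((ι.comp (algebraMap (𝓞 E) E)) 1) = 1
      rw [map_one, hr.one]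
    · intro x y
      change red ((ι.comp (algebraMap (𝓞 E) E)) (x * y)) = red (ι (x : E)) * red (ι (y : E))
      rw [map_mul, ← hr.mul _ _ (hb x) (hb y)]
      rfl
    · change red ((ι.comp (algebraMap (𝓞 E) E)) 0) = 0
      rw [map_zero]
      exact RDX_red0 hr (by rw [norm_zero]; exact one_pos)
    · intro x y
      change red ((ι.comp (algebraMap (𝓞 E) E)) (x + y)) = red (ι (x : E)) + red (ι (y : E))
      rw [map_add, ← hr.add _ _ (hb x) (hb y)]
      rfl
  · intro Γ F κ _ _ _ _ _ red hr ρ hρ hb S hS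
    have hU : {g : Γ | ∀ a b, ‖ρ g a b - (1 : Matrix (Fin 2) (Fin 2) F) a b‖ < 1} ∈ nhds (1 : Γ) := by
      have h1 : ∀ a b, ∀ᶠ g in nhds (1 : Γ), ‖ρ g a b - (1 : Matrix (Fin 2) (Fin 2) F) a b‖ < 1 := by
        intro a b
        have h2 : Continuous fun g => ‖ρ g a b - (1 : Matrix (Fin 2) (Fin 2) F) a b‖ :=
          ((hρ.matrix_elem a b).sub continuous_const).norm
        have h3 : ‖ρ 1 a b - (1 : Matrix (Fin 2) (Fin 2) F) a b‖ < 1 := by
          rw [map_one, sub_self, norm_zero]
          exact one_pos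
        exact h2.continuousAt.eventually_lt continuousAt_const h3
      exact Filter.eventually_all.2 fun a => Filter.eventually_all.2 fun b => h1 a b
    refine Subgroup.isOpen_of_mem_nhds S.ker (g := 1) (Filter.mem_of_superset hU ?_)
    intro g hg
    change S g = 1
    rw [hS g]
    ext a b
    rw [Matrix.map_apply]
    have h1 : ρ g a b = (1 : Matrix (Fin 2) (Fin 2) F) a b + (ρ g a b - (1 : Matrix (Fin 2) (Fin 2) F) a b) := by ring
    have h2 : ‖(1 : Matrix (Fin 2) (Fin 2) F) a b‖ ≤ 1 := by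
      by_cases hab : a = b
      · subst hab
        rw [Matrix.one_apply_eq, norm_one]
      · rw [Matrix.one_apply_ne hab, norm_zero]
        exact zero_le_one
    rw [h1, hr.add _ _ h2 (hg a b).le, RDX_red0 hr (hg a b), add_zero, RDX_red1 hr]
  · intro p _ Γ _ _ _ m V hV
    have hU : {g : Γ | ∀ a b, ‖V g a b - (1 : Matrix (Fin m) (Fin m) ℤ_[p]) a b‖ < 1} ∈ nhds (1 : Γ) := by
      have h1 : ∀ a b, ∀ᶠ g in nhds (1 : Γ), ‖V g a b - (1 : Matrix (Fin m) (Fin m) ℤ_[p]) a b‖ < 1 := by
        intro a b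
        have h2 : Continuous fun g => ‖V g a b - (1 : Matrix (Fin m) (Fin m) ℤ_[p]) a b‖ :=
          ((hV.matrix_elem a b).sub continuous_const).norm
        have h3 : ‖V 1 a b - (1 : Matrix (Fin m) (Fin m) ℤ_[p]) a b‖ < 1 := by
          rw [map_one, sub_self, norm_zero]
          exact one_pos
        exact h2.continuousAt.eventually_lt continuousAt_const h3
      exact Filter.eventually_all.2 fun a => Filter.eventually_all.2 fun b => h1 a b
    refine Subgroup.isOpen_of_mem_nhds _ (g := 1) (Filter.mem_of_superset hU ?_)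
    intro g hg
    change mapHom (PadicInt.toZMod (p := p)) V g = 1
    ext a b
    change PadicInt.toZMod (V g a b) = (1 : Matrix (Fin m) (Fin m) (ZMod p)) a b
    have h1 : V g a b - (1 : Matrix (Fin m) (Fin m) ℤ_[p]) a b ∈ RingHom.ker (PadicInt.toZMod (p := p)) := by
      rw [PadicInt.ker_toZMod, IsLocalRing.mem_maximalIdeal, PadicInt.mem_nonunits]
      exact hg a b
    rw [RingHom.mem_ker, map_sub, sub_eq_zero] at h1
    rw [h1]
    by_cases hab : a = b
    · subst hab
      rw [Matrix.one_apply_eq, Matrix.one_apply_eq, map_one]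
    · rw [Matrix.one_apply_ne hab, Matrix.one_apply_ne hab, map_zero]

end Pool.Agent.UM
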